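import Pool.Agent.N869.GK.StmM
import Pool.Agent.N527.GK.Exp

/-!
# GK/M-EXPM: the moments are sums over unlinked decorations, data for every copy

Port of `Pool.Agent.N527.GK.Exp` (author helper527).
-/

set_option autoImplicit false
set_option linter.unusedVariables false

open scoped Classical

namespace Pool.Agent.N170.GK.ExpM

open Finset Pool.Agent.N869.GK
open Pool.Agent.N869.QT.L (prs ext Lc Fam)
open Pool.Agent.N527.GK.Exp (Z2_cases Z2_add_self sn_sum single regroup sum_alpha om_add om_add'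
  om_smul_sum ae ext_add sum_sym sum_out sum_mem2 Qs_comm)

/-- all the copies, for given symbols -/
theorem copies {r : ℕ} {R ι : Type} [Fintype R] [DecidableEq R] [Fintype ι] (D : ι → Par r) (lab : R → Gr r)
    (N : R → R → ZMod 2) (T : ι → Finset R) :
    ((univ.filter fun y : ι → (Fin 2 → Gr r) × (R → V) => ∀ x, Sol (D x) lab N (T x) (y x)).card : ℝ) *
        4 ^ (∑ x, (T x).card) =
      ∑ s : ι → Fin 2 → Gr r, ∑ ζ : R → Dc ι,
        if (∀ i x, i ∉ T x → ζ i x = 0) ∧ M.XW D lab T s ζ then sn (M.Ex D lab N T s ζ) else 0 := by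
  have h1 : (univ.filter fun y : ι → (Fin 2 → Gr r) × (R → V) => ∀ x, Sol (D x) lab N (T x) (y x)) =
      Fintype.piFinset fun x => univ.filter fun y : (Fin 2 → Gr r) × (R → V) =>
        Sol (D x) lab N (T x) y := by
    ext y
    simp
  rw [h1, Fintype.card_piFinset, Nat.cast_prod, ← prod_pow_eq_pow_sum, ← prod_mul_distrib,
    prod_congr rfl fun x _ => single (D x) lab N (T x), Finset.prod_univ_sum]
  rw [← Fintype.sum_prod_type (f := fun q : (ι → Fin 2 → Gr r) × (R → Dc ι) =>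
    if (∀ i x, i ∉ T x → q.2 i x = 0) ∧ M.XW D lab T q.1 q.2 then sn (M.Ex D lab N T q.1 q.2) else 0)]
  rw [← Finset.sum_filter_of_ne (s := Fintype.piFinset _) (p := fun _ => True)
    (fun _ _ _ => trivial)]
  have h2 : (Fintype.piFinset fun x => univ.filter fun p : (Fin 2 → Gr r) × (R → V × V) =>
      (∀ i, i ∉ T x → p.2 i = 0) ∧ Xl lab (T x) p.1 (fun i => (p.2 i).1) ∈ (D x).W) =
      univ.filter fun p : ι → (Fin 2 → Gr r) × (R → V × V) => ∀ x, (∀ i, i ∉ T x → (p x).2 i = 0) ∧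
        Xl lab (T x) (p x).1 (fun i => ((p x).2 i).1) ∈ (D x).W := by
    ext p
    simp
  rw [Finset.filter_true, h2, sum_filter]
  refine Fintype.sum_equiv (regroup (Fin 2 → Gr r) R (V × V) ι) _ _ fun p => ?_
  refine if_congr ?_ ?_ rfl
  · constructor
    · intro h
      exact ⟨fun i x hi => (h x).1 i hi, fun x => (h x).2⟩
    · rintro ⟨h1, h2⟩ x
      exact ⟨fun i hi => h1 i x hi, h2 x⟩
  · unfold M.Ex
    rw [sn_sum]
    rfl

/-- change of the symbols -/
theorem Ex_change {r : ℕ} {R ι : Type} [Fintype ι] (D : ι → Par r) (lab : R → Gr r)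
    (N N' : R → R → ZMod 2) (T : ι → Finset R) (s : ι → Fin 2 → Gr r) (ζ : R → Dc ι) :
    M.Ex D lab N' T s ζ = M.Ex D lab N T s ζ + ∑ x, ∑ i ∈ T x, ∑ j ∈ T x,
      (N' i j + N i j) * om (ζ i x).2 ((ζ i x).1 + (ζ j x).1) := by
  unfold M.Ex
  rw [← sum_add_distrib]
  refine sum_congr rfl fun x _ => ?_
  rw [← sum_add_distrib]
  refine sum_congr rfl fun i _ => ?_
  rw [← om_smul_sum, ← om_add]
  congr 1
  funext c
  simp only [row, Pi.add_apply]
  have h : ∀ j, N' i j * ((ζ i x).1 c + (ζ j x).1 c) =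
      N i j * ((ζ i x).1 c + (ζ j x).1 c) + (N' i j + N i j) * ((ζ i x).1 c + (ζ j x).1 c) := by
    intro j
    rw [← add_mul, add_comm (N' i j), ← add_assoc, Z2_add_self, zero_add]
  rw [sum_congr rfl fun j _ => h j, sum_add_distrib]
  ring

section

variable {r : ℕ} {U J I Q ι : Type} [Fintype U] [Fintype J] [LinearOrder J] [Fintype ι]

omit [Fintype U] in
/-- the dependence of the exponent on the free symbols -/
theorem Ex_alpha (D₀ : Par r) (D : ι → Par r) (W : I → Finset U) (E : I → Finset Q) (g : J → Q) (c : ι → I)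
    (lU : U → Gr r) (lJ : J → Gr r) (A : U → U → ZMod 2) (B : U → J → ZMod 2)
    (α : prs J → ZMod 2) (s : ι → Fin 2 → Gr r) (ζ : U ⊕ J → Dc ι) :
    M.Ex D (Sum.elim lU lJ) (Nm D₀ lU lJ A B α) (fun x => TT W E g (c x)) s ζ =
      M.Ex D (Sum.elim lU lJ) (Nm D₀ lU lJ A B 0) (fun x => TT W E g (c x)) s ζ +
        ∑ e : prs J, α e * Qs (Aq E c (g e.1.1) ∩ Aq E c (g e.1.2)) (ζ (.inr e.1.1))
          (ζ (.inr e.1.2)) := by
  rw [Ex_change D _ (Nm D₀ lU lJ A B 0) (Nm D₀ lU lJ A B α)]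
  congr 1
  have h1 : ∀ x, ∑ i ∈ TT W E g (c x), ∑ j ∈ TT W E g (c x),
      (Nm D₀ lU lJ A B α i j + Nm D₀ lU lJ A B 0 i j) * om (ζ i x).2 ((ζ i x).1 + (ζ j x).1) =
      ∑ k : J, ∑ l : J, (ae α (l, k) + ae α (k, l)) *
        (if k ∈ Lc E g (c x) ∧ l ∈ Lc E g (c x) then
          om (ζ (.inr k) x).2 ((ζ (.inr k) x).1 + (ζ (.inr l) x).1) else 0) := by
    intro x
    unfold TT
    rw [sum_disjSum]
    have h2 : ∑ u ∈ W (c x), ∑ j ∈ (W (c x)).disjSum (Lc E g (c x)),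
        (Nm D₀ lU lJ A B α (Sum.inl u) j + Nm D₀ lU lJ A B 0 (Sum.inl u) j) *
          om (ζ (Sum.inl u) x).2 ((ζ (Sum.inl u) x).1 + (ζ j x).1) = 0 := by
      refine sum_eq_zero fun u _ => sum_eq_zero fun j _ => ?_
      have h3 : Nm D₀ lU lJ A B α (Sum.inl u) j + Nm D₀ lU lJ A B 0 (Sum.inl u) j = 0 := by
        cases j <;> exact Z2_add_self _
      rw [h3, zero_mul]
    rw [h2, zero_add]
    have h4 : ∀ k, ∑ j ∈ (W (c x)).disjSum (Lc E g (c x)),
        (Nm D₀ lU lJ A B α (Sum.inr k) j + Nm D₀ lU lJ A B 0 (Sum.inr k) j) *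
          om (ζ (Sum.inr k) x).2 ((ζ (Sum.inr k) x).1 + (ζ j x).1) =
        ∑ l ∈ Lc E g (c x), (ae α (l, k) + ae α (k, l)) *
          om (ζ (.inr k) x).2 ((ζ (.inr k) x).1 + (ζ (.inr l) x).1) := by
      intro k
      rw [sum_disjSum]
      have h5 : ∑ u ∈ W (c x),
          (Nm D₀ lU lJ A B α (Sum.inr k) (Sum.inl u) + Nm D₀ lU lJ A B 0 (Sum.inr k) (Sum.inl u)) *
            om (ζ (Sum.inr k) x).2 ((ζ (Sum.inr k) x).1 + (ζ (Sum.inl u) x).1) = 0 := by
        refine sum_eq_zero fun u _ => ?_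
        have h3 : Nm D₀ lU lJ A B α (Sum.inr k) (Sum.inl u) +
            Nm D₀ lU lJ A B 0 (Sum.inr k) (Sum.inl u) = 0 := Z2_add_self _
        rw [h3, zero_mul]
      rw [h5, zero_add]
      refine sum_congr rfl fun l _ => ?_
      congr 1
      exact ext_add (fun k => dot D₀.em (lJ k)) α k l
    rw [sum_congr rfl fun k _ => h4 k]
    exact sum_mem2 (Lc E g (c x)) (fun k l => ae α (l, k) + ae α (k, l))
      (fun k l => om (ζ (.inr k) x).2 ((ζ (.inr k) x).1 + (ζ (.inr l) x).1))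
  rw [sum_congr rfl fun x _ => h1 x]
  rw [sum_out (fun k l => ae α (l, k) + ae α (k, l)) (fun x k l =>
    if k ∈ Lc E g (c x) ∧ l ∈ Lc E g (c x) then
      om (ζ (.inr k) x).2 ((ζ (.inr k) x).1 + (ζ (.inr l) x).1) else 0)]
  rw [sum_sym α (fun k l => ∑ x, if k ∈ Lc E g (c x) ∧ l ∈ Lc E g (c x) then
      om (ζ (.inr k) x).2 ((ζ (.inr k) x).1 + (ζ (.inr l) x).1) else 0)]
  refine sum_congr rfl fun e _ => ?_
  congr 1
  rw [← sum_add_distrib]
  unfold Qs
  have h8 : (Aq E c (g e.1.1) ∩ Aq E c (g e.1.2)) = univ.filter fun x =>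
      e.1.1 ∈ Lc E g (c x) ∧ e.1.2 ∈ Lc E g (c x) := by
    ext x
    simp [Aq, Lc]
  rw [h8, sum_filter]
  refine sum_congr rfl fun x _ => ?_
  by_cases hx : e.1.1 ∈ Lc E g (c x) ∧ e.1.2 ∈ Lc E g (c x)
  · rw [if_pos hx, if_pos hx.symm, if_pos hx, om_add', add_comm (ζ (.inr e.1.2) x).1]
  · rw [if_neg hx, if_neg (fun h => hx h.symm), if_neg hx, add_zero]

end

theorem t_EXPM : Pool.Agent.N869.GK.M.S_EXPM := by
  intro r D₀ U J I Q ι _ _ _ _ D W E g c lU lJ A B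
  have h1 : ((univ.filter fun y : (prs J → ZMod 2) × (ι → (Fin 2 → Gr r) × (U ⊕ J → V)) =>
      ∀ x, Sol (D x) (Sum.elim lU lJ) (Nm D₀ lU lJ A B y.1) (TT W E g (c x)) (y.2 x)).card : ℝ) =
      ∑ α : prs J → ZMod 2, ((univ.filter fun y : ι → (Fin 2 → Gr r) × (U ⊕ J → V) =>
        ∀ x, Sol (D x) (Sum.elim lU lJ) (Nm D₀ lU lJ A B α) (TT W E g (c x)) (y x)).card : ℝ) := by
    rw [card_filter, Fintype.sum_prod_type, Nat.cast_sum]
    refine sum_congr rfl fun α _ => ?_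
    rw [card_filter]
  have h0 : ∀ α : prs J → ZMod 2, _ := fun α =>
    copies D (Sum.elim lU lJ) (Nm D₀ lU lJ A B α) (fun x => TT W E g (c x))
  rw [h1, sum_mul, sum_congr rfl fun α _ => h0 α]
  rw [sum_comm, mul_sum]
  refine sum_congr rfl fun s _ => ?_
  rw [sum_comm, sum_filter, mul_sum]
  refine sum_congr rfl fun ζ _ => ?_
  by_cases hc : (∀ i x, i ∉ TT W E g (c x) → ζ i x = 0) ∧
      M.XW D (Sum.elim lU lJ) (fun x => TT W E g (c x)) s ζ
  · simp only [if_pos hc]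
    rw [sum_congr rfl fun α _ => congrArg sn (Ex_alpha D₀ D W E g c lU lJ A B α s ζ)]
    have h2 := sum_alpha (P := prs J)
      (M.Ex D (Sum.elim lU lJ) (Nm D₀ lU lJ A B 0) (fun x => TT W E g (c x)) s ζ)
      (fun e => Qs (Aq E c (g e.1.1) ∩ Aq E c (g e.1.2)) (ζ (.inr e.1.1)) (ζ (.inr e.1.2)))
    refine h2.trans ?_
    rw [Fintype.card_coe]
    have h3 : (∀ e : prs J, Qs (Aq E c (g e.1.1) ∩ Aq E c (g e.1.2)) (ζ (.inr e.1.1))
        (ζ (.inr e.1.2)) = 0) ↔ ((∀ i x, i ∉ TT W E g (c x) → ζ i x = 0) ∧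
        M.XW D (Sum.elim lU lJ) (fun x => TT W E g (c x)) s ζ ∧
        ∀ k l, k ≠ l → Qs (Aq E c (g k) ∩ Aq E c (g l)) (ζ (.inr k)) (ζ (.inr l)) = 0) := by
      constructor
      · intro h
        refine ⟨hc.1, hc.2, fun k l hkl => ?_⟩
        rcases lt_or_gt_of_ne hkl with hlt | hlt
        · exact h ⟨(k, l), by
            unfold prs
            rw [mem_filter]
            exact ⟨mem_univ _, hlt⟩⟩
        · rw [Qs_comm, inter_comm]
          exact h ⟨(l, k), by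
            unfold prs
            rw [mem_filter]
            exact ⟨mem_univ _, hlt⟩⟩
      · rintro ⟨-, -, h⟩ e
        have he := e.2
        unfold prs at he
        rw [mem_filter] at he
        exact h _ _ he.2.ne
    rw [if_congr h3 rfl rfl, mul_ite, mul_zero]
  · simp only [if_neg hc, sum_const_zero]
    rw [if_neg, mul_zero]
    rintro ⟨h1, h2, -⟩
    exact hc ⟨h1, h2⟩

end Pool.Agent.N170.GK.ExpM
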